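import Pool.Agent.H78.SP.Final

open MeasureTheory ProbabilityTheory Filter Topology Asymptotics Pool.Agent.H78.SP

namespace Pool.Agent.Results.MP_05f51d_lc.SparsePCADegree

/-- Above the spectral threshold `lambda = beta / sqrt gamma > 1`, for every sequence of
degrees `D n` tending to infinity (however slowly, so in particular for `O(log n)`) some
polynomials of degree at most `D n` strongly separate the planted law from the null law. -/
theorem result (β γ : ℝ) (hβ : 0 < β) (hγ : 0 < γ) (hlam : 1 < β / √γ)
    (N : ℕ → ℕ) (hN : Tendsto (fun n : ℕ => (n : ℝ) / N n) atTop (𝓝 γ))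
    (k : ℕ → ℝ) (hk : Tendsto k atTop atTop)
    (hkn : Tendsto (fun n : ℕ => k n / n) atTop (𝓝 0))
    (D : ℕ → ℕ) (hD : Tendsto D atTop atTop) :
    ∃ f : ∀ n, MvPolynomial (Fin n × Fin (N n)) ℝ,
      (∀ n, (f n).totalDegree ≤ D n) ∧
      StronglySeparates (fun n => plantedLaw n (N n) β (k n)) (fun n => nullLaw n (N n))
        (fun n y => MvPolynomial.eval y (f n)) :=
  main β γ hβ hγ hlam N hN k hk hkn D hD

end Pool.Agent.Results.MP_05f51d_lc.SparsePCADegree
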